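import Pool.Agent.H2.ST.Targets

/-!
Symplectic torus actions (MP_51eb24_ag): independence of characters (CHI) and the Poisson grading
of a symplectic action (PGR).
-/

set_option autoImplicit false

open Pool.Agent.H2.ST MvPolynomial

namespace Pool.Agent.H67.ST2

section

variable {k : Type} [Field k] {d : ℕ}

/-- the character as a homomorphism of monoids -/
def chrHom (χ : Fin d → ℤ) : (Fin d → kˣ) →* k where
  toFun t := ((chr χ t : kˣ) : k)
  map_one' := by simp [chr]
  map_mul' s t := by simp [chr, mul_zpow, Finset.prod_mul_distrib]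

theorem chr_single [DecidableEq (Fin d)] (χ : Fin d → ℤ) (i : Fin d) (s : kˣ) :
    chr χ (Pi.mulSingle i s) = s ^ (χ i) := by
  unfold chr
  rw [Finset.prod_eq_single i]
  · rw [Pi.mulSingle_eq_same]
  · intro j _ hj
    rw [Pi.mulSingle_eq_of_ne hj, one_zpow]
  · intro h
    exact absurd (Finset.mem_univ i) h

theorem exists_unit [Infinite k] (n : ℕ) (hn : 0 < n) : ∃ s : kˣ, s ^ n ≠ 1 := by
  classical
  obtain ⟨x, hx⟩ := Infinite.exists_notMem_finset
    ((Polynomial.nthRoots n (1 : k)).toFinset ∪ {0})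
  rw [Finset.notMem_union] at hx
  have hx0 : x ≠ 0 := by simpa using hx.2
  refine ⟨Units.mk0 x hx0, fun h => hx.1 ?_⟩
  rw [Multiset.mem_toFinset, Polynomial.mem_nthRoots hn]
  have := congrArg (fun u : kˣ => (u : k)) h
  simpa using this

theorem exists_unit_int [Infinite k] (n : ℤ) (hn : n ≠ 0) : ∃ s : kˣ, s ^ n ≠ 1 := by
  obtain ⟨s, hs⟩ := exists_unit (k := k) n.natAbs (Int.natAbs_pos.2 hn)
  refine ⟨s, fun h => hs ?_⟩
  rcases Int.natAbs_eq n with h1 | h1
  · rw [h1, zpow_natCast] at h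
    exact h
  · rw [h1, zpow_neg, zpow_natCast, inv_eq_one] at h
    exact h

/-- a nonzero weight is a nontrivial character -/
theorem exists_chr_ne [Infinite k] (χ : Fin d → ℤ) (hχ : χ ≠ 0) :
    ∃ t : Fin d → kˣ, chr χ t ≠ 1 := by
  classical
  obtain ⟨i, hi⟩ := Function.ne_iff.1 hχ
  obtain ⟨s, hs⟩ := exists_unit_int (k := k) (χ i) hi
  exact ⟨Pi.mulSingle i s, by rw [chr_single]; exact hs⟩

theorem chr_sub (χ χ' : Fin d → ℤ) (t : Fin d → kˣ) :
    chr (χ - χ') t = chr χ t * (chr χ' t)⁻¹ := by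
  unfold chr
  rw [← Finset.prod_inv_distrib, ← Finset.prod_mul_distrib]
  exact Finset.prod_congr rfl fun i _ => by rw [Pi.sub_apply, zpow_sub]

theorem chr_add (χ χ' : Fin d → ℤ) (t : Fin d → kˣ) :
    chr (χ + χ') t = chr χ t * chr χ' t := by
  unfold chr
  rw [← Finset.prod_mul_distrib]
  exact Finset.prod_congr rfl fun i _ => by rw [Pi.add_apply, zpow_add]

theorem chr_zero (t : Fin d → kˣ) : chr (0 : Fin d → ℤ) t = 1 := by
  unfold chr
  exact Finset.prod_eq_one fun i _ => by rw [Pi.zero_apply, zpow_zero]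

theorem chr_mul (χ : Fin d → ℤ) (s t : Fin d → kˣ) : chr χ (s * t) = chr χ s * chr χ t := by
  unfold chr
  rw [← Finset.prod_mul_distrib]
  exact Finset.prod_congr rfl fun i _ => by rw [Pi.mul_apply, mul_zpow]

theorem chr_one (χ : Fin d → ℤ) : chr χ (1 : Fin d → kˣ) = 1 := by
  unfold chr
  exact Finset.prod_eq_one fun i _ => by rw [Pi.one_apply, one_zpow]

theorem chrHom_inj [Infinite k] :
    Function.Injective (chrHom (k := k) : (Fin d → ℤ) → ((Fin d → kˣ) →* k)) := by
  intro χ χ' h
  by_contra hne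
  obtain ⟨t, ht⟩ := exists_chr_ne (k := k) (χ - χ') (sub_ne_zero.2 hne)
  apply ht
  have h1 : ((chr χ t : kˣ) : k) = ((chr χ' t : kˣ) : k) := DFunLike.congr_fun h t
  rw [chr_sub, Units.ext h1, mul_inv_cancel]

end

theorem pf_CHI : T_CHI := by
  intro k _ _ d V _ _ U c hc χ
  have hli : LinearIndependent k (fun χ : Fin d → ℤ =>
      ((chrHom (k := k) χ : (Fin d → kˣ) →* k) : (Fin d → kˣ) → k)) :=
    (linearIndependent_monoidHom (Fin d → kˣ) k).comp _ chrHom_inj
  have h0 : (Submodule.Quotient.mk (c χ) : V ⧸ U) = 0 := by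
    rw [← Module.forall_dual_apply_eq_zero_iff k]
    intro l
    by_cases hχ : χ ∈ c.support
    · have h1 := linearIndependent_iff'.1 hli c.support
        (fun χ => l (Submodule.Quotient.mk (c χ))) ?_ χ hχ
      · exact h1
      · funext t
        rw [Finset.sum_apply]
        have h2 : (Submodule.Quotient.mk (c.sum fun χ x => ((chr χ t : kˣ) : k) • x) : V ⧸ U) = 0 :=
          (Submodule.Quotient.mk_eq_zero U).2 (hc t)
        have h3 := congrArg l h2
        rw [map_zero] at h3
        rw [Pi.zero_apply, ← h3]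
        unfold Finsupp.sum
        have h4 : (Submodule.Quotient.mk (∑ χ ∈ c.support, ((chr χ t : kˣ) : k) • c χ) : V ⧸ U) =
            ∑ χ ∈ c.support, ((chr χ t : kˣ) : k) • (Submodule.Quotient.mk (c χ) : V ⧸ U) := by
          rw [← Submodule.mkQ_apply, map_sum]
          refine Finset.sum_congr rfl fun χ _ => ?_
          rw [map_smul, Submodule.mkQ_apply]
        rw [h4, map_sum]
        refine Finset.sum_congr rfl fun χ _ => ?_
        rw [map_smul, Pi.smul_apply, smul_eq_mul, smul_eq_mul, mul_comm]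
        rfl
    · rw [Finsupp.notMem_support_iff.1 hχ, Submodule.Quotient.mk_zero, map_zero]
  exact (Submodule.Quotient.mk_eq_zero U).1 h0

theorem pf_PGR : T_PGR := by
  intro k _ _ m d ρ hg hs hc
  refine { hg with pbr := ?_, van := ?_ }
  · intro a b f g hf hgg t
    rw [hs, hf t, hgg t, smul_br, br_smul, smul_smul, chr_add, Units.val_mul]
  · intro a ha f hf
    obtain ⟨t, ht⟩ := exists_chr_ne (k := k) a ha
    have h1 : constantCoeff f = ((chr a t : kˣ) : k) * constantCoeff f := by
      conv_lhs => rw [← hc t f, hf t]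
      rw [smul_eq_C_mul, map_mul, constantCoeff_C]
    have h2 : (1 - ((chr a t : kˣ) : k)) * constantCoeff f = 0 := by
      rw [sub_mul, one_mul, ← h1, sub_self]
    rcases mul_eq_zero.1 h2 with h3 | h3
    · exact absurd (Units.ext (sub_eq_zero.1 h3).symm) ht
    · exact h3

end Pool.Agent.H67.ST2
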