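import Pool.Agent.H2.ST.Targets
import Pool.Agent.H67.QT.Main

/-!
Symplectic torus actions (MP_51eb24_ag): an algebraic torus action has a fixed point (FIX).
-/

set_option autoImplicit false

open MvPolynomial

namespace Pool.Agent.H67.ST2

theorem pf_FIX : Pool.Agent.H2.ST.T_FIX := by
  intro k _ _ _ σ _ d ρ hρ
  obtain ⟨m, F, hF⟩ := hρ
  have e : σ ≃ Fin (Fintype.card σ) := Fintype.equivFin σ
  let E : MvPolynomial σ k ≃ₐ[k] MvPolynomial (Fin (Fintype.card σ)) k := renameEquiv k e
  have hEs : ∀ j, E.symm (X j) = X (e.symm j) := by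
    intro j
    rw [AlgEquiv.symm_apply_eq]
    change (X j : MvPolynomial (Fin (Fintype.card σ)) k) = rename e (X (e.symm j))
    rw [rename_X, Equiv.apply_symm_apply]
  let ρ' : (Fin d → kˣ) →* (MvPolynomial (Fin (Fintype.card σ)) k ≃ₐ[k]
      MvPolynomial (Fin (Fintype.card σ)) k) := (AlgEquiv.autCongr E).toMonoidHom.comp ρ
  have hρ' : ∀ t f, ρ' t f = E (ρ t (E.symm f)) := fun t f => rfl
  have hL : ∀ j, (fun t => ρ' t (X j)) ∈ Pool.Agent.H67.QT.Lau k (Fintype.card σ) d := by
    intro j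
    refine Pool.Agent.H67.QT.Lau_of_alg _ m (rename (Sum.map id e) (F (e.symm j))) fun t => ?_
    have h1 := congrArg E (hF t (e.symm j))
    rw [map_mul] at h1
    rw [hρ', hEs, aeval_rename]
    have h2 : E (C ((∏ i, ((t i : kˣ) : k)) ^ m)) = C ((∏ i, ((t i : kˣ) : k)) ^ m) := by
      change rename e (C _) = _
      rw [rename_C]
    rw [h2] at h1
    rw [h1, ← AlgEquiv.coe_toAlgHom E, ← AlgHom.comp_apply, comp_aeval]
    congr 1
    congr 1
    funext s
    rcases s with i | l
    · change rename e (C _) = _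
      rw [rename_C]
      rfl
    · change rename e (X _) = _
      rw [rename_X]
      rfl
  obtain ⟨p, hp⟩ := Pool.Agent.H67.QT.torus_fixed ρ' hL
  refine ⟨p ∘ e, fun t f => ?_⟩
  have h1 : ∀ g : MvPolynomial σ k, eval (p ∘ e) g = eval p (E g) := fun g => by
    change _ = eval p (rename e g)
    rw [eval_rename]
  have h2 : ((aeval p : MvPolynomial (Fin (Fintype.card σ)) k →ₐ[k] k).comp
      (ρ' t : MvPolynomial (Fin (Fintype.card σ)) k →ₐ[k] _)) = aeval p := by
    refine algHom_ext fun j => ?_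
    rw [AlgHom.comp_apply, aeval_X]
    exact hp t j
  have h3 := DFunLike.congr_fun h2 (E f)
  rw [h1, h1]
  rw [AlgHom.comp_apply] at h3
  change eval p (ρ' t (E f)) = eval p (E f) at h3
  rw [hρ', AlgEquiv.symm_apply_apply] at h3
  exact h3

end Pool.Agent.H67.ST2
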