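import Pool.Agent.H67.ST2.CHI

/-!
Symplectic torus actions (MP_51eb24_ag): an algebraic torus action gives a grading (GRD).
-/

set_option autoImplicit false

open Pool.Agent.H2.ST MvPolynomial

namespace Pool.Agent.H67.ST2

section

variable {k A : Type} [Field k] [CommRing A] [Algebra k A] {d : ℕ}

/-- finite combinations of characters with coefficients in an algebra -/
def IsL (f : (Fin d → kˣ) → A) : Prop :=
  ∃ c : (Fin d → ℤ) →₀ A, ∀ t, f t = c.sum fun χ x => ((chr χ t : kˣ) : k) • x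

theorem IsL_single (χ : Fin d → ℤ) (x : A) :
    IsL (k := k) (fun t : Fin d → kˣ => ((chr χ t : kˣ) : k) • x) :=
  ⟨Finsupp.single χ x, fun t => by rw [Finsupp.sum_single_index]; rw [smul_zero]⟩

theorem IsL_zero : IsL (k := k) (fun _ : Fin d → kˣ => (0 : A)) :=
  ⟨0, fun t => by rw [Finsupp.sum_zero_index]⟩

theorem IsL_const (x : A) : IsL (k := k) (fun _ : Fin d → kˣ => x) := by
  obtain ⟨c, hc⟩ := IsL_single (k := k) (0 : Fin d → ℤ) x
  refine ⟨c, fun t => ?_⟩
  rw [← hc t]
  beta_reduce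
  rw [chr_zero, Units.val_one, one_smul]

theorem IsL_add {f g : (Fin d → kˣ) → A} (hf : IsL f) (hg : IsL g) :
    IsL (fun t => f t + g t) := by
  classical
  obtain ⟨c, hc⟩ := hf
  obtain ⟨c', hc'⟩ := hg
  refine ⟨c + c', fun t => ?_⟩
  beta_reduce
  rw [Finsupp.sum_add_index', hc t, hc' t]
  · intro χ
    rw [smul_zero]
  · intro χ x y
    rw [smul_add]

theorem IsL_sum {ι : Type} (s : Finset ι) (f : ι → (Fin d → kˣ) → A)
    (hf : ∀ i ∈ s, IsL (f i)) : IsL (fun t => ∑ i ∈ s, f i t) := by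
  classical
  induction s using Finset.induction_on with
  | empty =>
    simp only [Finset.sum_empty]
    exact IsL_zero
  | insert a s ha ih =>
    simp only [Finset.sum_insert ha]
    exact IsL_add (hf a (Finset.mem_insert_self a s))
      (ih fun i hi => hf i (Finset.mem_insert_of_mem hi))

theorem IsL_mul {f g : (Fin d → kˣ) → A} (hf : IsL f) (hg : IsL g) :
    IsL (fun t => f t * g t) := by
  obtain ⟨c, hc⟩ := hf
  obtain ⟨c', hc'⟩ := hg
  have h1 : IsL (k := k) (fun t : Fin d → kˣ => ∑ χ ∈ c.support, ∑ χ' ∈ c'.support,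
      ((chr (χ + χ') t : kˣ) : k) • (c χ * c' χ')) :=
    IsL_sum _ _ fun χ _ => IsL_sum _ _ fun χ' _ => IsL_single _ _
  obtain ⟨e, he⟩ := h1
  refine ⟨e, fun t => ?_⟩
  rw [← he t]
  beta_reduce
  rw [hc t, hc' t]
  unfold Finsupp.sum
  rw [Finset.sum_mul]
  refine Finset.sum_congr rfl fun χ _ => ?_
  rw [Finset.mul_sum]
  refine Finset.sum_congr rfl fun χ' _ => ?_
  rw [chr_add, Units.val_mul, smul_mul_smul_comm]

end

section

variable {k : Type} [Field k] {σ : Type} {d : ℕ}

theorem chr_pi_single [DecidableEq (Fin d)] (i : Fin d) (t : Fin d → kˣ) :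
    chr (Pi.single i 1) t = t i := by
  unfold chr
  rw [Finset.prod_eq_single i]
  · rw [Pi.single_eq_same, zpow_one]
  · intro b _ hb
    rw [Pi.single_eq_of_ne hb, zpow_zero]
  · intro h
    exact absurd (Finset.mem_univ _) h

theorem IsL_aeval (F : MvPolynomial (Fin d ⊕ σ) k) :
    IsL (k := k) (fun t : Fin d → kˣ => aeval (Sum.elim (fun i : Fin d => C ((t i : kˣ) : k))
      (fun l : σ => (X l : MvPolynomial σ k))) F) := by
  induction F using MvPolynomial.induction_on with
  | C a =>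
    simp only [algHom_C, algebraMap_eq]
    exact IsL_const _
  | add p q hp hq =>
    simp only [map_add]
    exact IsL_add hp hq
  | mul_X p i hp =>
    simp only [map_mul, aeval_X]
    refine IsL_mul hp ?_
    rcases i with i | l
    · obtain ⟨c, hc⟩ := IsL_single (k := k) (Pi.single i 1 : Fin d → ℤ) (1 : MvPolynomial σ k)
      refine ⟨c, fun t => ?_⟩
      rw [← hc t]
      beta_reduce
      rw [chr_pi_single, Sum.elim_inl, smul_eq_C_mul, mul_one]
    · exact IsL_const _

theorem IsL_act (ρ : (Fin d → kˣ) →* (MvPolynomial σ k ≃ₐ[k] MvPolynomial σ k)) (hρ : AlgAct ρ)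
    (f : MvPolynomial σ k) : IsL (fun t => ρ t f) := by
  obtain ⟨N, F, hF⟩ := hρ
  induction f using MvPolynomial.induction_on with
  | C a =>
    obtain ⟨c, hc⟩ := IsL_const (k := k) (d := d) (C a : MvPolynomial σ k)
    refine ⟨c, fun t => ?_⟩
    rw [← hc t, ← algebraMap_eq]
    exact AlgEquiv.commutes _ _
  | add p q hp hq =>
    simp only [map_add]
    exact IsL_add hp hq
  | mul_X p j hp =>
    simp only [map_mul]
    refine IsL_mul hp ?_
    have h1 := IsL_mul (IsL_single (k := k) (fun _ : Fin d => -(N : ℤ)) (1 : MvPolynomial σ k))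
      (IsL_aeval (F j))
    obtain ⟨c, hc⟩ := h1
    refine ⟨c, fun t => ?_⟩
    rw [← hc t]
    beta_reduce
    rw [← hF t j, ← mul_assoc, smul_eq_C_mul, mul_one, ← C_mul]
    have h3 : ((chr (fun _ : Fin d => -(N : ℤ)) t : kˣ) : k) *
        (∏ i, ((t i : kˣ) : k)) ^ N = 1 := by
      rw [← Units.coe_prod, ← Units.val_pow_eq_pow_val, ← Units.val_mul]
      have h4 : chr (fun _ : Fin d => -(N : ℤ)) t * (∏ i, t i) ^ N = 1 := by
        unfold chr
        rw [← Finset.prod_pow, ← Finset.prod_mul_distrib]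
        refine Finset.prod_eq_one fun i _ => ?_
        rw [zpow_neg, zpow_natCast, inv_mul_cancel]
      rw [h4, Units.val_one]
    rw [h3, C_1, one_mul]

/-- the coefficients of the orbit map are weight vectors -/
theorem IsL_wt [Infinite k] (ρ : (Fin d → kˣ) →* (MvPolynomial σ k ≃ₐ[k] MvPolynomial σ k))
    (f : MvPolynomial σ k) (c : (Fin d → ℤ) →₀ MvPolynomial σ k)
    (hc : ∀ t, ρ t f = c.sum fun χ x => ((chr χ t : kˣ) : k) • x) (χ : Fin d → ℤ) :
    c χ ∈ Wt ρ χ := by
  intro s
  have h0 : ∀ χ : Fin d → ℤ, ρ s (c χ) - ((chr χ s : kˣ) : k) • c χ ≠ 0 → χ ∈ c.support := by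
    intro χ h
    rw [Finsupp.mem_support_iff]
    intro h1
    apply h
    rw [h1, map_zero, smul_zero, sub_zero]
  have h1 := pf_CHI k d (MvPolynomial σ k) ⊥
    (Finsupp.onFinset c.support (fun χ => ρ s (c χ) - ((chr χ s : kˣ) : k) • c χ) h0) ?_ χ
  · rw [Finsupp.onFinset_apply, Submodule.mem_bot] at h1
    exact sub_eq_zero.1 h1
  · intro t
    rw [Submodule.mem_bot, Finsupp.onFinset_sum _ (fun χ => by rw [smul_zero])]
    have h2 : ρ s (ρ t f) = ρ (s * t) f := by
      rw [map_mul, AlgEquiv.mul_apply]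
    rw [hc t, hc (s * t)] at h2
    unfold Finsupp.sum at h2
    rw [map_sum] at h2
    simp only [smul_sub, Finset.sum_sub_distrib]
    rw [sub_eq_zero]
    have h3 : ∀ χ ∈ c.support, ρ s (((chr χ t : kˣ) : k) • c χ) =
        ((chr χ t : kˣ) : k) • ρ s (c χ) := fun χ _ => map_smul _ _ _
    rw [Finset.sum_congr rfl h3] at h2
    rw [h2]
    refine Finset.sum_congr rfl fun χ _ => ?_
    beta_reduce
    rw [chr_mul, Units.val_mul, smul_smul, mul_comm]

end

theorem pf_GRD : T_GRD := by
  intro k _ _ σ _ d ρ hρ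
  refine { one := ?_, mul := ?_, dec := ?_, ind := ?_ }
  · intro t
    rw [map_one, chr_zero, Units.val_one, one_smul]
  · intro a b f g hf hg t
    rw [map_mul, hf t, hg t, chr_add, Units.val_mul, smul_mul_smul_comm]
  · intro f
    obtain ⟨c, hc⟩ := IsL_act ρ hρ f
    refine ⟨c, IsL_wt ρ f c hc, ?_⟩
    have h1 := hc 1
    beta_reduce at h1
    rw [map_one, AlgEquiv.one_apply] at h1
    rw [h1]
    refine Finsupp.sum_congr fun χ _ => ?_
    rw [chr_one, Units.val_one, one_smul]
  · intro c hc h0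
    ext1 χ
    have h1 := pf_CHI k d (MvPolynomial σ k) ⊥ c ?_ χ
    · rw [Submodule.mem_bot] at h1
      rw [h1, Finsupp.zero_apply]
    · intro t
      rw [Submodule.mem_bot]
      have h2 := congrArg (ρ t) h0
      rw [map_zero] at h2
      unfold Finsupp.sum at h2 ⊢
      rw [map_sum] at h2
      rw [← h2]
      exact Finset.sum_congr rfl fun χ _ => (hc χ t).symm

end Pool.Agent.H67.ST2
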